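import Pool.Agent.W81.RL.FinL

/-!
Bounded functions with small exponential sums at the values of a polynomial: all arithmetic
progressions to small moduli simultaneously.
-/

set_option autoImplicit false

namespace Pool.Agent.W81.RL

open Finset Filter Polynomial
open Pool.Agent.H469R2.NK (e norm_e)
open Pool.Agent.W81.R1
open Pool.Agent.W81.RD
open Pool.Agent.H442R2.EHI (evt_log_pow evt_log_ge)
open Pool.Agent.H300R2.BH (chf fz)

/-- the polynomial `f(q X + b) - f(b)` -/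
noncomputable def apP (f : ℤ[X]) (q b : ℕ) : ℤ[X] :=
  (taylor (b : ℤ) f).comp (C (q : ℤ) * X) - C (f.eval (b : ℤ))

lemma apP_eval (f : ℤ[X]) (q b : ℕ) (m : ℤ) :
    (apP f q b).eval m = f.eval ((q : ℤ) * m + b) - f.eval (b : ℤ) := by
  unfold apP
  rw [eval_sub, eval_comp, eval_C, taylor_eval]
  simp

lemma apP_coeff (f : ℤ[X]) (q b i : ℕ) (hi : 1 ≤ i) :
    (apP f q b).coeff i = (taylor (b : ℤ) f).coeff i * (q : ℤ) ^ i := by
  unfold apP
  rw [coeff_sub, comp_C_mul_X_coeff, coeff_C, if_neg (by omega), sub_zero]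

lemma apP_coeff0 (f : ℤ[X]) (q b : ℕ) : (apP f q b).coeff 0 = 0 := by
  unfold apP
  rw [coeff_sub, comp_C_mul_X_coeff, coeff_C_zero, pow_zero, mul_one, taylor_coeff_zero, sub_self]

lemma apP_deg (f : ℤ[X]) (q b : ℕ) (hq : 1 ≤ q) : (apP f q b).natDegree ≤ f.natDegree := by
  rw [natDegree_le_iff_coeff_eq_zero]
  intro i hi
  rw [apP_coeff f q b i (by omega)]
  have h1 : (taylor (b : ℤ) f).natDegree < i := by rwa [natDegree_taylor]
  rw [coeff_eq_zero_of_natDegree_lt h1, zero_mul]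

lemma apP_lead (f : ℤ[X]) (q b : ℕ) (hd : 1 ≤ f.natDegree) :
    (apP f q b).coeff f.natDegree = f.leadingCoeff * (q : ℤ) ^ f.natDegree := by
  rw [apP_coeff f q b _ hd, coeff_taylor_natDegree]

/-- a bound for the coefficients -/
noncomputable def bigK (f : ℤ[X]) : ℝ :=
  ∑ i ∈ range (f.natDegree + 1), ∑ k ∈ range (f.natDegree + 1), |(((hasseDeriv i f).coeff k : ℤ) : ℝ)|

lemma bigK_nonneg (f : ℤ[X]) : 0 ≤ bigK f :=
  sum_nonneg fun _ _ => sum_nonneg fun _ _ => abs_nonneg _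

lemma hasse_bound (f : ℤ[X]) (i q b : ℕ) (hi : i ≤ f.natDegree) (hq : 1 ≤ q) (hbq : b < q) :
    |(((hasseDeriv i f).eval (b : ℤ) : ℤ) : ℝ)| ≤ bigK f * (q : ℝ) ^ f.natDegree := by
  have hdeg : (hasseDeriv i f).natDegree < f.natDegree + 1 := by
    have := natDegree_hasseDeriv_le f i
    omega
  rw [eval_eq_sum_range' hdeg]
  push_cast
  refine (abs_sum_le_sum_abs _ _).trans ?_
  have hqr : (1 : ℝ) ≤ q := by exact_mod_cast hq
  have h1 : ∀ k ∈ range (f.natDegree + 1), |(((hasseDeriv i f).coeff k : ℤ) : ℝ) * (b : ℝ) ^ k| ≤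
      |(((hasseDeriv i f).coeff k : ℤ) : ℝ)| * (q : ℝ) ^ f.natDegree := by
    intro k hk
    rw [mem_range] at hk
    rw [abs_mul, abs_of_nonneg (by positivity : (0 : ℝ) ≤ (b : ℝ) ^ k)]
    apply mul_le_mul_of_nonneg_left _ (abs_nonneg _)
    calc (b : ℝ) ^ k ≤ (q : ℝ) ^ k := by
          apply pow_le_pow_left₀ (Nat.cast_nonneg _)
          exact_mod_cast hbq.le
      _ ≤ (q : ℝ) ^ f.natDegree := pow_le_pow_right₀ hqr (by omega)
  refine (sum_le_sum h1).trans ?_
  rw [← sum_mul]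
  apply mul_le_mul_of_nonneg_right _ (by positivity)
  unfold bigK
  exact single_le_sum (f := fun i => ∑ k ∈ range (f.natDegree + 1), |(((hasseDeriv i f).coeff k : ℤ) : ℝ)|)
    (fun _ _ => sum_nonneg fun _ _ => abs_nonneg _) (mem_range.2 (by omega))

lemma habs_norm (h : ℕ → ℂ) (hb : ∀ n, ‖h n‖ ≤ 1) (v : ℤ) : ‖habs h v‖ ≤ 1 := by
  unfold habs
  split_ifs
  · simp
  · exact hb _

/-- splitting a progression -/
lemma prog_split (h : ℕ → ℂ) (hb : ∀ n, ‖h n‖ ≤ 1) (f : ℤ[X]) (q b y : ℕ) (hq : 1 ≤ q) (hbq : b < q)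
    (c : ℤ) (T : ℝ) (hT0 : 0 ≤ T)
    (hT : ∀ Y ≤ y / q, ‖∑ m ∈ Ioc 0 Y, habs h ((apP f q b).eval (m : ℤ) + (c + f.eval (b : ℤ)))‖ ≤ T) :
    ‖∑ n ∈ (Icc 1 y).filter (fun n : ℕ => n % q = b), habs h (f.eval (n : ℤ) + c)‖ ≤ 1 + T := by
  set Y := (y - b) / q with hY
  have hYy : Y ≤ y / q := Nat.div_le_div_right (by omega)
  have key := hT Y hYy
  rcases Nat.lt_or_ge y b with hyb | hyb
  · have hempty : (Icc 1 y).filter (fun n : ℕ => n % q = b) = ∅ := by
      rw [eq_empty_iff_forall_notMem]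
      intro n hn
      rw [mem_filter, mem_Icc] at hn
      have := Nat.mod_le n q
      omega
    rw [hempty, sum_empty, norm_zero]
    linarith
  have himg : (Icc 1 y).filter (fun n : ℕ => n % q = b) \ {b} = (Ioc 0 Y).image (fun m => q * m + b) := by
    ext n
    simp only [Finset.mem_sdiff, Finset.mem_filter, Finset.mem_Icc, Finset.mem_singleton, Finset.mem_image,
      Finset.mem_Ioc]
    constructor
    · rintro ⟨⟨⟨h1, h2⟩, h3⟩, h4⟩
      have h5 : q * (n / q) + n % q = n := Nat.div_add_mod n q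
      refine ⟨n / q, ⟨?_, ?_⟩, by rw [← h3]; exact h5⟩
      · by_contra hcon
        have h6 : n / q = 0 := Nat.eq_zero_of_not_pos hcon
        rw [h6, Nat.mul_zero, Nat.zero_add] at h5
        omega
      · rw [hY, Nat.le_div_iff_mul_le (by omega)]
        have h6 : n / q * q = q * (n / q) := Nat.mul_comm _ _
        omega
    · rintro ⟨m, ⟨h1, h2⟩, h3⟩
      have h4 : m * q ≤ y - b := by
        rw [hY] at h2
        exact (Nat.le_div_iff_mul_le (by omega)).1 h2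
      have h5 : m * q = q * m := Nat.mul_comm _ _
      have h6 : 1 ≤ q * m := Nat.one_le_iff_ne_zero.2 (Nat.mul_ne_zero (by omega) (by omega))
      refine ⟨⟨⟨by omega, by omega⟩, ?_⟩, by omega⟩
      rw [← h3, Nat.mul_add_mod]
      exact Nat.mod_eq_of_lt hbq
  have hsum : ∑ n ∈ (Icc 1 y).filter (fun n : ℕ => n % q = b) \ {b}, habs h (f.eval (n : ℤ) + c) =
      ∑ m ∈ Ioc 0 Y, habs h ((apP f q b).eval (m : ℤ) + (c + f.eval (b : ℤ))) := by
    rw [himg, sum_image]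
    · refine sum_congr rfl fun m _ => ?_
      rw [apP_eval]
      push_cast
      congr 1
      ring
    · intro m1 _ m2 _ h12
      simp only at h12
      have : q * m1 = q * m2 := by omega
      exact Nat.eq_of_mul_eq_mul_left (by omega) this
  have hdiff : ‖∑ n ∈ (Icc 1 y).filter (fun n : ℕ => n % q = b), habs h (f.eval (n : ℤ) + c) -
      ∑ n ∈ (Icc 1 y).filter (fun n : ℕ => n % q = b) \ {b}, habs h (f.eval (n : ℤ) + c)‖ ≤ 1 := by
    by_cases hbm : b ∈ (Icc 1 y).filter (fun n : ℕ => n % q = b)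
    · rw [← sum_sdiff (singleton_subset_iff.2 hbm), add_sub_cancel_left, sum_singleton]
      exact habs_norm h hb _
    · rw [Finset.sdiff_singleton_eq_erase, Finset.erase_eq_of_notMem hbm, sub_self, norm_zero]
      exact zero_le_one
  rw [hsum] at hdiff
  calc _ = ‖(∑ n ∈ (Icc 1 y).filter (fun n : ℕ => n % q = b), habs h (f.eval (n : ℤ) + c) -
        ∑ m ∈ Ioc 0 Y, habs h ((apP f q b).eval (m : ℤ) + (c + f.eval (b : ℤ)))) +
        ∑ m ∈ Ioc 0 Y, habs h ((apP f q b).eval (m : ℤ) + (c + f.eval (b : ℤ)))‖ := by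
        rw [sub_add_cancel]
    _ ≤ 1 + T := (norm_add_le _ _).trans (add_le_add hdiff key)

/-- **all progressions** -/
theorem apL (h : ℕ → ℂ) (hb : ∀ n, ‖h n‖ ≤ 1) (hs : SupE h) (f : ℤ[X]) (hd : 2 ≤ f.natDegree)
    (hl : 0 < f.leadingCoeff) (C0 U : ℕ) : ∃ B : ℕ, ∀ᶠ x : ℕ in atTop, ∀ (c0 : ℤ) (A : ℕ),
    |(c0 : ℝ)| ≤ (x : ℝ) ^ f.natDegree * Real.log x ^ C0 →
    (x : ℝ) ^ (f.natDegree - 1) * Real.log x ^ B ≤ A →
    (A : ℝ) ≤ (x : ℝ) ^ f.natDegree * Real.log x ^ C0 →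
    ∃ Bad : Finset ℤ, (Bad.card : ℝ) ≤ A / Real.log x ^ U ∧ ∀ c : ℤ, c0 < c → c ≤ c0 + A → c ∉ Bad →
      ∀ q : ℕ, 1 ≤ q → (q : ℝ) ≤ Real.log x ^ C0 → ∀ b < q, ∀ y ≤ x,
        ‖∑ n ∈ (Icc 1 y).filter (fun n : ℕ => n % q = b), habs h (f.eval (n : ℤ) + c)‖ ≤
          x / Real.log x ^ U := by
  set d := f.natDegree with hdd
  set j := d - 1 with hj
  have hjd : j + 1 = d := by omega
  set C1 := 2 * (d * C0) + C0 + 4 with hC1
  set U' := U + 2 * C0 + 3 with hU'
  obtain ⟨B', hB'⟩ := absL h hb hs j (by omega) C1 U'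
  refine ⟨B', ?_⟩
  obtain ⟨X0, hX0⟩ := eventually_atTop.mp hB'
  obtain ⟨a, ha⟩ : ∃ a : ℕ, f.leadingCoeff = a := ⟨f.leadingCoeff.toNat, by omega⟩
  have ha1 : 1 ≤ a := by omega
  filter_upwards [evt_log_ge (2 ^ (C1 + U' + B' + d + 10) * (a + bigK f + 1)),
    evt_log_pow (2 * (d * C0) + B' + C0 + U' + 3) (1 / 6) (by norm_num),
    (tendsto_rpow_atTop (show (0 : ℝ) < 5 / 6 by norm_num)).comp
      (tendsto_natCast_atTop_atTop (R := ℝ)) |>.eventually_ge_atTop (X0 : ℝ), eventually_ge_atTop 16]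
    with x hLb hpow hX0x hx16 c0 A hc0 hA1 hA2
  simp only [Function.comp] at hX0x
  have hK0 := bigK_nonneg f
  set K := bigK f with hK
  set L := Real.log x with hL
  have ha0 : (0 : ℝ) ≤ a := Nat.cast_nonneg _
  have hpw1 : (1 : ℝ) ≤ 2 ^ (C1 + U' + B' + d + 10) := one_le_pow₀ (by norm_num)
  have hLa : (2 : ℝ) ^ (C1 + U' + B' + d + 10) ≤ L := by
    refine le_trans ?_ hLb
    nlinarith
  have hL1024 : 1024 ≤ L := by
    refine le_trans ?_ hLa
    calc (1024 : ℝ) = 2 ^ 10 := by norm_num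
      _ ≤ 2 ^ (C1 + U' + B' + d + 10) := pow_le_pow_right₀ (by norm_num) (by omega)
  have hL0 : 0 < L := by linarith
  have hL1 : 1 ≤ L := by linarith
  have haL : (a : ℝ) ≤ L := by
    refine le_trans ?_ hLb
    nlinarith
  have hKL : K ≤ L := by
    refine le_trans ?_ hLb
    nlinarith
  have hp : ∀ n : ℕ, 0 < L ^ n := fun n => by positivity
  have hp1 : ∀ n : ℕ, 1 ≤ L ^ n := fun n => one_le_pow₀ hL1
  have hxr : (16 : ℝ) ≤ x := by exact_mod_cast hx16
  have hx0 : (0 : ℝ) < x := by linarith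
  have hA0 : (0 : ℝ) ≤ A := Nat.cast_nonneg _
  set Q := ⌊L ^ C0⌋₊ with hQ
  have hQle : (Q : ℝ) ≤ L ^ C0 := Nat.floor_le (by positivity)
  -- one progression
  have hone : ∀ q b : ℕ, ∃ Bad : Finset ℤ, (Bad.card : ℝ) ≤ A * 2 ^ U' / L ^ U' ∧
      (1 ≤ q → q ≤ Q → b < q → ∀ c : ℤ, c0 < c → c ≤ c0 + A → c ∉ Bad → ∀ y ≤ x,
        ‖∑ n ∈ (Icc 1 y).filter (fun n : ℕ => n % q = b), habs h (f.eval (n : ℤ) + c)‖ ≤
          x / L ^ U) := by
    intro q b
    by_cases hqb : 1 ≤ q ∧ q ≤ Q ∧ b < q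
    swap
    · exact ⟨∅, by rw [card_empty]; push_cast; positivity, fun h1 h2 h3 => absurd ⟨h1, h2, h3⟩ hqb⟩
    obtain ⟨hq1, hqQ, hbq⟩ := hqb
    have hqr : (1 : ℝ) ≤ q := by exact_mod_cast hq1
    have hqL : (q : ℝ) ≤ L ^ C0 := le_trans (by exact_mod_cast hqQ) hQle
    set X := x / q with hXd
    have hXx : X ≤ x := Nat.div_le_self _ _
    have hXxr : (X : ℝ) ≤ x := by exact_mod_cast hXx
    have hlt : x < q * (X + 1) := Nat.lt_mul_div_succ x (by omega)
    have hltr : (x : ℝ) < q * (X + 1) := by exact_mod_cast hlt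
    have h6 : L ^ (2 * (d * C0) + B' + C0 + U' + 3) ≤ (x : ℝ) ^ (1 / 6 : ℝ) := hpow
    have h56 : (x : ℝ) ^ (5 / 6 : ℝ) * (x : ℝ) ^ (1 / 6 : ℝ) = x := by
      rw [← Real.rpow_add hx0]; norm_num
    have h56p : 0 < (x : ℝ) ^ (5 / 6 : ℝ) := by positivity
    have h16p : 0 < (x : ℝ) ^ (1 / 6 : ℝ) := by positivity
    have hX56 : (x : ℝ) ^ (5 / 6 : ℝ) ≤ X := by
      by_contra hcon
      rw [not_le] at hcon
      have h1 : (1 : ℝ) ≤ (x : ℝ) ^ (5 / 6 : ℝ) := Real.one_le_rpow (by linarith) (by norm_num)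
      have h2 : (q : ℝ) * (X + 1) ≤ L ^ C0 * (2 * (x : ℝ) ^ (5 / 6 : ℝ)) := by
        apply mul_le_mul hqL (by linarith) (by positivity) (by positivity)
      have h3 : L ^ C0 * 2 ≤ (x : ℝ) ^ (1 / 6 : ℝ) := by
        refine le_trans ?_ h6
        calc L ^ C0 * 2 ≤ L ^ C0 * L := by gcongr; linarith
          _ = L ^ (C0 + 1) := by ring
          _ ≤ _ := pow_le_pow_right₀ hL1 (by omega)
      have h4 : L ^ C0 * (2 * (x : ℝ) ^ (5 / 6 : ℝ)) ≤ x := by
        calc L ^ C0 * (2 * (x : ℝ) ^ (5 / 6 : ℝ)) = (x : ℝ) ^ (5 / 6 : ℝ) * (L ^ C0 * 2) := by ring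
          _ ≤ (x : ℝ) ^ (5 / 6 : ℝ) * (x : ℝ) ^ (1 / 6 : ℝ) := by gcongr
          _ = x := h56
      linarith
    have hXpos : (0 : ℝ) < X := lt_of_lt_of_le h56p hX56
    have hX1 : (1 : ℝ) ≤ X := by
      have : 0 < X := by exact_mod_cast hXpos
      exact_mod_cast this
    have hXX0 : X0 ≤ X := by exact_mod_cast hX0x.trans hX56
    have hxqX : (x : ℝ) ≤ 2 * q * X := by nlinarith
    set M := Real.log X with hM
    have hML : M ≤ L := Real.log_le_log hXpos hXxr
    have hLM : L ≤ 2 * M := by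
      have h1 := Real.log_le_log h56p hX56
      rw [Real.log_rpow hx0] at h1
      linarith
    have hM0 : 0 < M := by linarith
    have hM1 : 1 ≤ M := by linarith
    have hMp : ∀ n : ℕ, 0 < M ^ n := fun n => by positivity
    have h2M : ∀ n : ℕ, n ≤ C1 → L ^ n ≤ M ^ (n + 1) := by
      intro n hn
      calc L ^ n ≤ (2 * M) ^ n := pow_le_pow_left₀ hL0.le hLM n
        _ = 2 ^ n * M ^ n := by rw [mul_pow]
        _ ≤ M * M ^ n := by
            gcongr
            have h3 : (2 : ℝ) ^ (n + 1) ≤ 2 ^ (C1 + U' + B' + d + 10) :=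
              pow_le_pow_right₀ (by norm_num) (by omega)
            have h4 : (2 : ℝ) ^ (n + 1) = 2 * 2 ^ n := by ring
            linarith
        _ = M ^ (n + 1) := by ring
    have hqd : (q : ℝ) ^ d ≤ L ^ (d * C0) := by
      calc (q : ℝ) ^ d ≤ (L ^ C0) ^ d := by gcongr
        _ = L ^ (d * C0) := by rw [← pow_mul, mul_comm]
    have h2d : (2 : ℝ) ^ d ≤ L := by
      refine le_trans ?_ hLa
      exact pow_le_pow_right₀ (by norm_num) (by omega)
    have hxd : (x : ℝ) ^ d ≤ (X : ℝ) ^ d * L ^ (d * C0 + 1) := by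
      calc (x : ℝ) ^ d ≤ (2 * q * X) ^ d := by gcongr
        _ = (X : ℝ) ^ d * (2 ^ d * (q : ℝ) ^ d) := by rw [mul_pow, mul_pow]; ring
        _ ≤ (X : ℝ) ^ d * (L * L ^ (d * C0)) := by gcongr
        _ = _ := by ring
    have hfb : |((f.eval (b : ℤ) : ℤ) : ℝ)| ≤ K * (q : ℝ) ^ d := by
      have := hasse_bound f 0 q b (by omega) hq1 hbq
      rwa [hasseDeriv_zero'] at this
    set F := apP f q b with hF
    obtain ⟨Bad, hBad, hgood⟩ := hX0 X hXX0 F (a * q ^ d) (c0 + f.eval (b : ℤ)) A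
      (by rw [hjd]; exact apP_deg f q b hq1)
      (by rw [hjd, hF, hdd, apP_lead f q b (by omega), ha]; push_cast; ring)
      (apP_coeff0 f q b)
      (Nat.one_le_iff_ne_zero.2 (Nat.mul_ne_zero (by omega) (pow_ne_zero _ (by omega))))
      (by
        push_cast
        calc (a : ℝ) * (q : ℝ) ^ d ≤ L * L ^ (d * C0) := by gcongr
          _ = L ^ (d * C0 + 1) := by ring
          _ ≤ M ^ (d * C0 + 1 + 1) := h2M _ (by omega)
          _ ≤ M ^ C1 := pow_le_pow_right₀ hM1 (by omega))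
      (by
        intro i hi1 hij
        rw [hF, apP_coeff f q b i hi1, taylor_coeff]
        push_cast
        rw [abs_mul, abs_of_nonneg (by positivity : (0 : ℝ) ≤ (q : ℝ) ^ i), le_div_iff₀ (hMp _)]
        have h1 := hasse_bound f i q b (by omega) hq1 hbq
        have h2 : (q : ℝ) ^ i ≤ (q : ℝ) ^ d := pow_le_pow_right₀ hqr (by omega)
        calc |(((hasseDeriv i f).eval (b : ℤ) : ℤ) : ℝ)| * (q : ℝ) ^ i * M ^ B'
            ≤ (K * (q : ℝ) ^ d) * (q : ℝ) ^ d * L ^ B' := by gcongr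
          _ ≤ (L * L ^ (d * C0)) * L ^ (d * C0) * L ^ B' := by gcongr
          _ = L ^ (2 * (d * C0) + B' + 1) := by ring
          _ ≤ L ^ (2 * (d * C0) + B' + C0 + U' + 3) := pow_le_pow_right₀ hL1 (by omega)
          _ ≤ (x : ℝ) ^ (1 / 6 : ℝ) := h6
          _ ≤ (x : ℝ) ^ (5 / 6 : ℝ) := Real.rpow_le_rpow_of_exponent_le (by linarith) (by norm_num)
          _ ≤ (X : ℝ) ^ 1 := by rw [pow_one]; exact hX56
          _ ≤ (X : ℝ) ^ (j + 1 - i) := pow_le_pow_right₀ hX1 (by omega))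
      (by
        push_cast
        rw [hjd]
        have h1 : |(c0 : ℝ) + (f.eval (b : ℤ) : ℤ)| ≤ (x : ℝ) ^ d * L ^ C0 + K * (q : ℝ) ^ d :=
          (abs_add_le _ _).trans (add_le_add hc0 hfb)
        have h2 : (1 : ℝ) ≤ (X : ℝ) ^ d := one_le_pow₀ hX1
        calc |(c0 : ℝ) + (f.eval (b : ℤ) : ℤ)| ≤ (x : ℝ) ^ d * L ^ C0 + K * (q : ℝ) ^ d := h1
          _ ≤ ((X : ℝ) ^ d * L ^ (d * C0 + 1)) * L ^ C0 + (X : ℝ) ^ d * (L * L ^ (d * C0)) := by
              apply add_le_add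
              · gcongr
              · calc K * (q : ℝ) ^ d ≤ L * L ^ (d * C0) := by gcongr
                  _ = 1 * (L * L ^ (d * C0)) := (one_mul _).symm
                  _ ≤ (X : ℝ) ^ d * (L * L ^ (d * C0)) := by gcongr
          _ = (X : ℝ) ^ d * (L ^ (d * C0 + 1 + C0) + L ^ (d * C0 + 1)) := by ring
          _ ≤ (X : ℝ) ^ d * (L ^ (d * C0 + 1 + C0) + L ^ (d * C0 + 1 + C0)) := by
              apply mul_le_mul_of_nonneg_left _ (by positivity)
              have := pow_le_pow_right₀ hL1 (show d * C0 + 1 ≤ d * C0 + 1 + C0 by omega)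
              linarith
          _ = (X : ℝ) ^ d * (2 * L ^ (d * C0 + 1 + C0)) := by ring
          _ ≤ (X : ℝ) ^ d * (L * L ^ (d * C0 + 1 + C0)) := by gcongr; linarith
          _ = (X : ℝ) ^ d * L ^ (d * C0 + C0 + 2) := by ring
          _ ≤ (X : ℝ) ^ d * M ^ (d * C0 + C0 + 2 + 1) := by
              gcongr
              exact h2M _ (by omega)
          _ ≤ (X : ℝ) ^ d * M ^ C1 :=
              mul_le_mul_of_nonneg_left (pow_le_pow_right₀ hM1 (by omega)) (by positivity))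
      (by
        refine le_trans ?_ hA1
        gcongr)
      (by
        rw [hjd]
        refine hA2.trans ?_
        calc (x : ℝ) ^ d * L ^ C0 ≤ ((X : ℝ) ^ d * L ^ (d * C0 + 1)) * L ^ C0 := by gcongr
          _ = (X : ℝ) ^ d * L ^ (d * C0 + 1 + C0) := by ring
          _ ≤ (X : ℝ) ^ d * M ^ (d * C0 + 1 + C0 + 1) := by
              gcongr
              exact h2M _ (by omega)
          _ ≤ (X : ℝ) ^ d * M ^ C1 :=
              mul_le_mul_of_nonneg_left (pow_le_pow_right₀ hM1 (by omega)) (by positivity))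
    have hMU : (1 : ℝ) / M ^ U' ≤ 2 ^ U' / L ^ U' := by
      rw [div_le_div_iff₀ (hMp _) (hp _), one_mul, ← mul_pow]
      exact pow_le_pow_left₀ hL0.le hLM _
    refine ⟨Bad.image (fun c => c - f.eval (b : ℤ)), ?_, ?_⟩
    · have h1 : ((Bad.image (fun c => c - f.eval (b : ℤ))).card : ℝ) ≤ Bad.card := by
        exact_mod_cast card_image_le
      refine h1.trans (hBad.trans ?_)
      calc (A : ℝ) / M ^ U' = A * (1 / M ^ U') := by ring
        _ ≤ A * (2 ^ U' / L ^ U') := by gcongr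
        _ = _ := by ring
    · intro _ _ _ c hc1 hc2 hcB y hy
      have hcB' : c + f.eval (b : ℤ) ∉ Bad := by
        intro hcon
        apply hcB
        rw [mem_image]
        exact ⟨_, hcon, by ring⟩
      have key := hgood (c + f.eval (b : ℤ)) (by linarith) (by linarith) hcB'
      have h1 := prog_split h hb f q b y hq1 hbq c (X / M ^ U') (by positivity)
        (fun Y hY => key Y (hY.trans (Nat.div_le_div_right hy)))
      refine h1.trans ?_
      have h2 : (X : ℝ) / M ^ U' ≤ x / L ^ U / 2 := by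
        calc (X : ℝ) / M ^ U' = X * (1 / M ^ U') := by ring
          _ ≤ x * (2 ^ U' / L ^ U') := by gcongr
          _ ≤ x * (L / L ^ U') := by
              gcongr
              refine le_trans ?_ hLa
              exact pow_le_pow_right₀ (by norm_num) (by omega)
          _ = x / L ^ U / L ^ (2 * C0 + 2) := by
              rw [hU', show U + 2 * C0 + 3 = U + (2 * C0 + 2) + 1 by ring, pow_succ L, pow_add L U]
              field_simp
          _ ≤ x / L ^ U / 2 := by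
              gcongr
              calc (2 : ℝ) ≤ L ^ 1 := by rw [pow_one]; linarith
                _ ≤ L ^ (2 * C0 + 2) := pow_le_pow_right₀ hL1 (by omega)
      have h3 : (1 : ℝ) ≤ x / L ^ U / 2 := by
        rw [div_div, one_le_div (by positivity)]
        calc L ^ U * 2 ≤ L ^ U * L := by gcongr; linarith
          _ = L ^ (U + 1) := by ring
          _ ≤ L ^ (2 * (d * C0) + B' + C0 + U' + 3) := pow_le_pow_right₀ hL1 (by omega)
          _ ≤ (x : ℝ) ^ (1 / 6 : ℝ) := h6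
          _ ≤ (x : ℝ) ^ (1 : ℝ) := Real.rpow_le_rpow_of_exponent_le (by linarith) (by norm_num)
          _ = x := Real.rpow_one _
      linarith
  choose Bad hBad hgood using hone
  refine ⟨(Icc 1 Q).biUnion (fun q => (range q).biUnion (fun b => Bad q b)), ?_, ?_⟩
  · have h1 : (((Icc 1 Q).biUnion (fun q => (range q).biUnion (fun b => Bad q b))).card : ℝ) ≤
        ∑ q ∈ Icc 1 Q, ∑ b ∈ range q, ((Bad q b).card : ℝ) := by
      have h2 := card_biUnion_le (s := Icc 1 Q) (t := fun q => (range q).biUnion (fun b => Bad q b))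
      have h3 : ∑ q ∈ Icc 1 Q, ((range q).biUnion (fun b => Bad q b)).card ≤
          ∑ q ∈ Icc 1 Q, ∑ b ∈ range q, (Bad q b).card := sum_le_sum fun q _ => card_biUnion_le
      exact_mod_cast h2.trans h3
    refine h1.trans ?_
    have h2 : ∀ q ∈ Icc 1 Q, ∑ b ∈ range q, ((Bad q b).card : ℝ) ≤ L ^ C0 * (A * 2 ^ U' / L ^ U') := by
      intro q hq
      rw [mem_Icc] at hq
      calc ∑ b ∈ range q, ((Bad q b).card : ℝ) ≤ ∑ b ∈ range q, (A * 2 ^ U' / L ^ U' : ℝ) :=
            sum_le_sum fun b _ => hBad q b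
        _ = q * (A * 2 ^ U' / L ^ U') := by rw [sum_const, card_range, nsmul_eq_mul]
        _ ≤ L ^ C0 * (A * 2 ^ U' / L ^ U') := by
            gcongr
            exact le_trans (by exact_mod_cast hq.2) hQle
    calc _ ≤ ∑ q ∈ Icc 1 Q, L ^ C0 * (A * 2 ^ U' / L ^ U') := sum_le_sum h2
      _ = Q * (L ^ C0 * (A * 2 ^ U' / L ^ U')) := by
          rw [sum_const, Nat.card_Icc, nsmul_eq_mul, Nat.add_sub_cancel]
      _ ≤ L ^ C0 * (L ^ C0 * (A * 2 ^ U' / L ^ U')) := by gcongr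
      _ ≤ L ^ C0 * (L ^ C0 * (A * L / L ^ U')) := by
          gcongr
          refine le_trans ?_ hLa
          exact pow_le_pow_right₀ (by norm_num) (by omega)
      _ = A / L ^ U / L ^ 2 := by
          rw [hU', show U + 2 * C0 + 3 = U + C0 + C0 + 2 + 1 by ring, pow_succ L, pow_add L (U + C0 + C0),
            pow_add L (U + C0), pow_add L U]
          field_simp
      _ ≤ A / L ^ U := div_le_self (by positivity) (hp1 2)
  · intro c hc1 hc2 hcB q hq1 hqL b hbq y hy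
    have hqQ : q ≤ Q := Nat.le_floor hqL
    apply hgood q b hq1 hqQ hbq c hc1 hc2 _ y hy
    intro hcon
    apply hcB
    rw [mem_biUnion]
    refine ⟨q, mem_Icc.2 ⟨hq1, hqQ⟩, ?_⟩
    rw [mem_biUnion]
    exact ⟨b, mem_range.2 hbq, hcon⟩

end Pool.Agent.W81.RL
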