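import Pool.Agent.W81.RL.Fun
import Pool.Agent.H373R2.T7.Sys3

/-!
A weighted sum of a bounded function with small exponential sums at the values `f(n) + c`, for
arbitrary weights and almost all `c`.
-/

set_option autoImplicit false

namespace Pool.Agent.W81.RL

open Finset Filter Polynomial
open Pool.Agent.H469R2.NK (e norm_e)
open Pool.Agent.H442R2.EHI (evt_log_pow evt_log_ge)
open Pool.Agent.H373R2.T7 (SupSmall exI bil_h)

lemma exI_norm (h : ℕ → ℂ) (hb : ∀ n, ‖h n‖ ≤ 1) (k : ℤ) : ‖exI h k‖ ≤ 1 := by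
  unfold exI
  split_ifs
  · exact hb _
  · simp

/-- the sum over the shifts of the absolute values -/
lemma l1_a (h : ℕ → ℂ) (hb : ∀ n, ‖h n‖ ≤ 1) (hsup : SupSmall h)
    (f : ℤ[X]) (hd : 1 ≤ f.natDegree) (hl : 0 < f.leadingCoeff) (B : ℕ) (hB : 1 ≤ B) (U : ℕ) :
    ∃ N0 : ℕ, ∀ A : ℕ, N0 ≤ A → ∀ x : ℕ, A ≤ B * x ^ f.natDegree → x ^ f.natDegree ≤ B * A →
    ∀ w : ℕ → ℂ, (∀ m, ‖w m‖ ≤ 1) →
    ∑ a ∈ Icc 1 A, ‖∑ m ∈ Icc 1 x, w m * exI h (a + f.eval (m : ℤ))‖ ≤ A * x / Real.log A ^ U := by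
  obtain ⟨N0, hN0⟩ := bil_h h hb hsup f hd hl B hB U
  refine ⟨N0, fun A hA x hx1 hx2 w hw => ?_⟩
  set S : ℕ → ℂ := fun a => ∑ m ∈ Icc 1 x, w m * exI h (a + f.eval (m : ℤ)) with hS
  set G : ℕ → ℂ := fun a => (starRingEnd ℂ) (S a) / ‖S a‖ with hG
  have hG1 : ∀ a, ‖G a‖ ≤ 1 := by
    intro a
    rw [hG]
    simp only [norm_div, RCLike.norm_conj, Complex.norm_real, norm_norm]
    exact div_self_le_one _
  have key := hN0 A hA x hx1 hx2 A (by nlinarith) 1 (Or.inl rfl) G w hG1 hw
  refine le_trans (le_of_eq ?_) key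
  have e : ∑ a ∈ Icc 1 A, ∑ m ∈ Icc 1 x, G a * w m * exI h (a + 1 * f.eval (m : ℤ)) =
      ((∑ a ∈ Icc 1 A, ‖S a‖ : ℝ) : ℂ) := by
    push_cast
    apply sum_congr rfl
    intro a _
    have e1 : ∑ m ∈ Icc 1 x, G a * w m * exI h (a + 1 * f.eval (m : ℤ)) = G a * S a := by
      rw [hS, mul_sum]
      apply sum_congr rfl
      intro m _
      rw [one_mul]
      ring
    rw [e1, hG]
    simp only
    by_cases h0 : ‖S a‖ = 0
    · rw [norm_eq_zero.1 h0]; simp
    · have h0' : ((‖S a‖ : ℝ) : ℂ) ≠ 0 := by exact_mod_cast h0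
      rw [div_mul_eq_mul_div, mul_comm, Complex.mul_conj', pow_two]
      field_simp
  rw [e, Complex.norm_real, Real.norm_of_nonneg (sum_nonneg fun _ _ => norm_nonneg _)]

/-- **arbitrary weights** -/
theorem cof (h : ℕ → ℂ) (hb : ∀ n, ‖h n‖ ≤ 1) (hsup : SupSmall h)
    (f : ℤ[X]) (hd : 1 ≤ f.natDegree) (hl : 0 < f.leadingCoeff) (B : ℕ) (hB : 1 ≤ B) (U : ℕ) :
    ∀ᶠ x : ℕ in atTop, ∀ A : ℕ, A ≤ B * x ^ f.natDegree → x ^ f.natDegree ≤ B * A →
    ∀ w : ℕ → ℂ, (∀ m, ‖w m‖ ≤ 1) →
    ∃ Bad : Finset ℕ, (Bad.card : ℝ) ≤ A / Real.log x ^ U ∧ ∀ c ∈ Icc 1 A, c ∉ Bad → ∀ y ≤ x,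
      ‖∑ n ∈ Icc 1 y, w n * habs h (f.eval (n : ℤ) + c)‖ ≤ x / Real.log x ^ U := by
  set U' := 3 * U + 3 with hU'
  obtain ⟨N0, hN0⟩ := l1_a h hb hsup f hd hl B hB U'
  obtain ⟨n0, hn0, _⟩ := Pool.Agent.H373R2.T7.ev_mono f hd hl
  filter_upwards [evt_log_ge (2 ^ (U' + 10)), evt_log_ge (n0 : ℝ), evt_log_pow (U + 3) 1 (by norm_num),
    evt_log_pow 1 (1 / 2) (by norm_num), eventually_ge_atTop (B * N0 + B + 16), evt_log_ge (B : ℝ)]
    with x hLU hLn hLp hL12 hxN hLB A hA1 hA2 w hw
  rw [Real.rpow_one] at hLp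
  rw [pow_one] at hL12
  set L := Real.log x with hL
  have hL1024 : 1024 ≤ L := by
    refine le_trans ?_ hLU
    calc (1024 : ℝ) = 2 ^ 10 := by norm_num
      _ ≤ 2 ^ (U' + 10) := pow_le_pow_right₀ (by norm_num) (by omega)
  have hL0 : 0 < L := by linarith
  have hL1 : 1 ≤ L := by linarith
  have hp : ∀ n : ℕ, 0 < L ^ n := fun n => by positivity
  have hp1 : ∀ n : ℕ, 1 ≤ L ^ n := fun n => one_le_pow₀ hL1
  have hx16 : 16 ≤ x := by omega
  have hxr : (16 : ℝ) ≤ x := by exact_mod_cast hx16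
  have hx0 : (0 : ℝ) < x := by linarith
  have hxd : x ≤ x ^ f.natDegree := Nat.le_self_pow (by omega) x
  have hBA : x ≤ B * A := hxd.trans hA2
  have hN0A : N0 ≤ A := by
    by_contra hcon
    have h1 : B * A ≤ B * N0 := Nat.mul_le_mul_left _ (by omega)
    omega
  have hA1' : 1 ≤ A := by
    rcases Nat.eq_zero_or_pos A with h0 | h0
    · rw [h0] at hBA; omega
    · exact h0
  have hAr : (1 : ℝ) ≤ A := by exact_mod_cast hA1'
  have hA0 : (0 : ℝ) < A := by linarith
  have hB0 : (0 : ℝ) < B := by exact_mod_cast hB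
  -- log A
  set M := Real.log A with hM
  have hxhalf : (x : ℝ) ^ (1 / 2 : ℝ) * (x : ℝ) ^ (1 / 2 : ℝ) = x := by
    rw [← Real.rpow_add hx0]; norm_num
  have hhalf0 : 0 < (x : ℝ) ^ (1 / 2 : ℝ) := by positivity
  have hxA : (x : ℝ) ^ (1 / 2 : ℝ) ≤ A := by
    have h1 : (x : ℝ) ≤ B * A := by exact_mod_cast hBA
    have h2 : (B : ℝ) ≤ (x : ℝ) ^ (1 / 2 : ℝ) := hLB.trans hL12
    have h3 : (x : ℝ) ^ (1 / 2 : ℝ) * (x : ℝ) ^ (1 / 2 : ℝ) ≤ (x : ℝ) ^ (1 / 2 : ℝ) * A := by
      rw [hxhalf]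
      exact h1.trans (mul_le_mul_of_nonneg_right h2 hA0.le)
    exact le_of_mul_le_mul_left h3 hhalf0
  have hLM : L ≤ 2 * M := by
    have h1 := Real.log_le_log hhalf0 hxA
    rw [Real.log_rpow hx0] at h1
    linarith
  have hM0 : 0 < M := by linarith
  set S : ℕ → ℕ → ℂ := fun y a => ∑ m ∈ Icc 1 y, w m * exI h (a + f.eval (m : ℤ)) with hS
  -- one grid point
  have hone : ∀ y ≤ x, ((((Icc 1 A).filter (fun a => (x : ℝ) / (4 * L ^ U) < ‖S y a‖)).card : ℕ) : ℝ) ≤
      A / L ^ (2 * U + 2) := by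
    intro y hy
    set Bd := (Icc 1 A).filter (fun a => (x : ℝ) / (4 * L ^ U) < ‖S y a‖) with hBd
    have h1 := hN0 A hN0A x hA1 hA2 (fun m => if m ≤ y then w m else 0) (by
      intro m
      split_ifs
      · exact hw m
      · simp)
    have h2 : ∀ a : ℕ, ∑ m ∈ Icc 1 x, (if m ≤ y then w m else 0) * exI h (a + f.eval (m : ℤ)) = S y a := by
      intro a
      simp only [hS]
      have h3 : Icc 1 y ⊆ Icc 1 x := Icc_subset_Icc le_rfl hy
      rw [← sum_subset h3]
      · refine sum_congr rfl fun m hm => ?_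
        rw [mem_Icc] at hm
        rw [if_pos hm.2]
      · intro m hm hm2
        rw [mem_Icc] at hm hm2
        rw [if_neg (by omega), zero_mul]
    simp_rw [h2] at h1
    have h3 : (Bd.card : ℝ) * ((x : ℝ) / (4 * L ^ U)) ≤ A * x / M ^ U' := by
      refine le_trans ?_ h1
      calc (Bd.card : ℝ) * ((x : ℝ) / (4 * L ^ U)) = ∑ a ∈ Bd, (x : ℝ) / (4 * L ^ U) := by
            rw [sum_const, nsmul_eq_mul]
        _ ≤ ∑ a ∈ Bd, ‖S y a‖ := by
            refine sum_le_sum fun a ha => ?_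
            rw [hBd, mem_filter] at ha
            exact ha.2.le
        _ ≤ ∑ a ∈ Icc 1 A, ‖S y a‖ :=
            sum_le_sum_of_subset_of_nonneg (filter_subset _ _) fun _ _ _ => norm_nonneg _
    have h4 : A * x / M ^ U' ≤ A * x * 2 ^ U' / L ^ U' := by
      rw [div_le_div_iff₀ (by positivity) (hp _)]
      calc A * x * L ^ U' ≤ A * x * (2 * M) ^ U' := by gcongr
        _ = _ := by rw [mul_pow]; ring
    have h5 : (Bd.card : ℝ) * x ≤ (A / L ^ (2 * U + 2)) * x := by
      have h6 : (Bd.card : ℝ) * x = ((Bd.card : ℝ) * ((x : ℝ) / (4 * L ^ U))) * (4 * L ^ U) := by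
        field_simp
      rw [h6]
      calc ((Bd.card : ℝ) * ((x : ℝ) / (4 * L ^ U))) * (4 * L ^ U)
          ≤ (A * x * 2 ^ U' / L ^ U') * (4 * L ^ U) := by
            gcongr
            exact h3.trans h4
        _ = (4 * 2 ^ U') * (A * x) / L ^ (2 * U + 3) := by
            rw [hU', show 3 * U + 3 = (2 * U + 3) + U by ring, pow_add L (2 * U + 3)]
            field_simp
        _ ≤ L * (A * x) / L ^ (2 * U + 3) := by
            gcongr
            refine le_trans ?_ hLU
            rw [pow_add 2 U' 10]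
            have : (0 : ℝ) < 2 ^ U' := by positivity
            norm_num
            linarith
        _ = (A / L ^ (2 * U + 2)) * x := by
            rw [show 2 * U + 3 = (2 * U + 2) + 1 by ring, pow_succ]
            field_simp
    exact le_of_mul_le_mul_right h5 hx0
  set R := ⌈L ^ (U + 1)⌉₊ with hR
  have hRge : L ^ (U + 1) ≤ R := Nat.le_ceil _
  have hRlt : (R : ℝ) ≤ 2 * L ^ (U + 1) := by
    have h1 : (R : ℝ) < L ^ (U + 1) + 1 := Nat.ceil_lt_add_one (by positivity)
    have := hp1 (U + 1)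
    linarith
  have hR1 : 1 ≤ R := by
    have : (1 : ℝ) ≤ R := (hp1 _).trans hRge
    exact_mod_cast this
  have hR0 : (0 : ℝ) < R := by exact_mod_cast hR1
  refine ⟨(range (R + 1)).biUnion (fun i => (Icc 1 A).filter (fun a => (x : ℝ) / (4 * L ^ U) < ‖S (x * i / R) a‖)),
    ?_, ?_⟩
  · calc (((range (R + 1)).biUnion (fun i => (Icc 1 A).filter
          (fun a => (x : ℝ) / (4 * L ^ U) < ‖S (x * i / R) a‖))).card : ℝ)
        ≤ ∑ i ∈ range (R + 1), ((((Icc 1 A).filter
          (fun a => (x : ℝ) / (4 * L ^ U) < ‖S (x * i / R) a‖)).card : ℕ) : ℝ) := by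
          exact_mod_cast card_biUnion_le
      _ ≤ ∑ i ∈ range (R + 1), (A : ℝ) / L ^ (2 * U + 2) := by
          refine sum_le_sum fun i hi => ?_
          rw [mem_range] at hi
          apply hone
          apply Nat.div_le_of_le_mul
          rw [mul_comm R x]
          exact Nat.mul_le_mul_left _ (by omega)
      _ = ((R : ℝ) + 1) * (A / L ^ (2 * U + 2)) := by
          rw [sum_const, card_range, nsmul_eq_mul]
          push_cast
          ring
      _ ≤ (3 * L ^ (U + 1)) * (A / L ^ (2 * U + 2)) := by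
          gcongr
          have := hp1 (U + 1)
          linarith
      _ = 3 * (A / L ^ U) / L := by
          rw [show 2 * U + 2 = (U + 1) + U + 1 by ring, pow_succ L ((U + 1) + U), pow_add L (U + 1)]
          field_simp
      _ ≤ L * (A / L ^ U) / L := by gcongr; linarith
      _ = A / L ^ U := by field_simp
  · intro c hc hcB y hy
    rw [mem_Icc] at hc
    set i := y * R / x with hi
    have hxpos : 0 < x := by omega
    have h1 : x * i ≤ y * R := by rw [hi]; exact Nat.mul_div_le _ _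
    have h2 : y * R < x * (i + 1) := by rw [hi]; exact Nat.lt_mul_div_succ _ hxpos
    have hiR : i ≤ R := by
      rw [hi]
      apply Nat.div_le_of_le_mul
      exact Nat.mul_le_mul_right _ hy
    set yj := x * i / R with hyj
    have h3 : yj ≤ y := by
      rw [hyj]
      apply Nat.div_le_of_le_mul
      rw [mul_comm R y]; exact h1
    have h4 : x * i < R * (yj + 1) := by
      rw [hyj]
      exact Nat.lt_mul_div_succ _ (by omega)
    have h4r : (x : ℝ) * i < R * (yj + 1) := by exact_mod_cast h4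
    have h2r : (y : ℝ) * R < x * (i + 1) := by exact_mod_cast h2
    have hdiff : (y : ℝ) - yj ≤ x / R + 1 := by
      rw [← sub_le_iff_le_add, le_div_iff₀ hR0]
      nlinarith
    have hSj : ‖S yj c‖ ≤ x / (4 * L ^ U) := by
      by_contra hcon
      apply hcB
      rw [mem_biUnion]
      refine ⟨i, mem_range.2 (by omega), ?_⟩
      rw [mem_filter, mem_Icc]
      exact ⟨hc, not_le.1 hcon⟩
    clear_value yj
    have hrest : ‖S y c - S yj c‖ ≤ x / R + 1 := by
      have e1 : S y c - S yj c = ∑ n ∈ Ioc yj y, w n * exI h (c + f.eval (n : ℤ)) := by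
        simp only [hS]
        rw [sub_eq_iff_eq_add, ← sum_union]
        · congr 1
          ext n
          simp only [mem_Icc, mem_Ioc, mem_union]
          omega
        · rw [disjoint_left]
          intro n hn hn2
          rw [mem_Ioc] at hn
          rw [mem_Icc] at hn2
          omega
      rw [e1]
      refine (norm_sum_le _ _).trans ?_
      calc ∑ n ∈ Ioc yj y, ‖w n * exI h (c + f.eval (n : ℤ))‖ ≤ ∑ n ∈ Ioc yj y, (1 : ℝ) := by
            refine sum_le_sum fun n _ => ?_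
            rw [norm_mul]
            have t1 := hw n
            have t2 := exI_norm h hb (c + f.eval (n : ℤ))
            calc ‖w n‖ * ‖exI h (c + f.eval (n : ℤ))‖ ≤ 1 * 1 := by gcongr
              _ = 1 := one_mul _
        _ = ((y - yj : ℕ) : ℝ) := by rw [sum_const, Nat.card_Ioc, nsmul_eq_mul, mul_one]
        _ ≤ x / R + 1 := by
            rw [Nat.cast_sub h3]
            exact hdiff
    -- the values
    have hval : ‖∑ n ∈ Icc 1 y, w n * habs h (f.eval (n : ℤ) + c) - S y c‖ ≤ 2 * n0 := by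
      simp only [hS]
      rw [← sum_sub_distrib]
      refine (norm_sum_le _ _).trans ?_
      calc ∑ n ∈ Icc 1 y, ‖w n * habs h (f.eval (n : ℤ) + c) - w n * exI h (c + f.eval (n : ℤ))‖
          ≤ ∑ n ∈ Icc 1 y, (if n < n0 then (2 : ℝ) else 0) := by
            refine sum_le_sum fun n hn => ?_
            split_ifs with hnn
            · have t1 := hw n
              have t2 := exI_norm h hb (c + f.eval (n : ℤ))
              have t3 := habs_norm h hb (f.eval (n : ℤ) + c)
              have t4 : ‖w n * habs h (f.eval (n : ℤ) + c)‖ ≤ 1 := by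
                rw [norm_mul]
                calc ‖w n‖ * ‖habs h (f.eval (n : ℤ) + c)‖ ≤ 1 * 1 := by gcongr
                  _ = 1 := one_mul _
              have t5 : ‖w n * exI h (c + f.eval (n : ℤ))‖ ≤ 1 := by
                rw [norm_mul]
                calc ‖w n‖ * ‖exI h (c + f.eval (n : ℤ))‖ ≤ 1 * 1 := by gcongr
                  _ = 1 := one_mul _
              exact (norm_sub_le _ _).trans (by linarith)
            · have h5 := hn0 n (by omega)
              have h6 : habs h (f.eval (n : ℤ) + c) = exI h (c + f.eval (n : ℤ)) := by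
                unfold habs exI
                rw [if_neg (by omega), if_pos (by omega)]
                congr 1
                omega
              rw [h6, sub_self, norm_zero]
        _ ≤ ∑ n ∈ range n0, (2 : ℝ) := by
            rw [← sum_filter]
            apply sum_le_sum_of_subset_of_nonneg
            · intro n hn
              rw [mem_filter] at hn
              exact mem_range.2 hn.2
            · intro _ _ _; norm_num
        _ = 2 * n0 := by
            rw [sum_const, card_range, nsmul_eq_mul]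
            ring
    have hfin1 : x / (R : ℝ) ≤ x / (4 * L ^ U) := by
      apply div_le_div_of_nonneg_left hx0.le (by positivity)
      refine le_trans ?_ hRge
      rw [pow_succ]
      have := hp U
      nlinarith
    have hfin2 : 1 + 2 * (n0 : ℝ) ≤ x / (4 * L ^ U) := by
      rw [le_div_iff₀ (by positivity)]
      calc (1 + 2 * (n0 : ℝ)) * (4 * L ^ U) ≤ (3 * L) * (4 * L ^ U) := by gcongr; linarith
        _ = 12 * L ^ (U + 1) := by ring
        _ ≤ L ^ 2 * L ^ (U + 1) := by gcongr; nlinarith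
        _ = L ^ (U + 3) := by ring
        _ ≤ x := hLp
    have hsum : ‖∑ n ∈ Icc 1 y, w n * habs h (f.eval (n : ℤ) + c)‖ ≤ 2 * n0 + ((x / R + 1) + x / (4 * L ^ U)) := by
      calc ‖∑ n ∈ Icc 1 y, w n * habs h (f.eval (n : ℤ) + c)‖ =
            ‖(∑ n ∈ Icc 1 y, w n * habs h (f.eval (n : ℤ) + c) - S y c) + ((S y c - S yj c) + S yj c)‖ := by
            congr 1; ring
        _ ≤ 2 * n0 + ((x / R + 1) + x / (4 * L ^ U)) :=
            (norm_add_le _ _).trans (add_le_add hval ((norm_add_le _ _).trans (add_le_add hrest hSj)))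
    refine hsum.trans ?_
    have e4 : (x : ℝ) / L ^ U = 4 * (x / (4 * L ^ U)) := by field_simp
    rw [e4]
    have e5 : 0 ≤ (x : ℝ) / (4 * L ^ U) := by positivity
    linarith

end Pool.Agent.W81.RL
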