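import Pool.Agent.W81.RL.MeanL

/-!
Bounded functions with small exponential sums at the values of a polynomial: intervals of arbitrary
length for the constant term.
-/

set_option autoImplicit false

namespace Pool.Agent.W81.RL

open Finset Filter Polynomial
open Pool.Agent.H469R2.NK (e norm_e)
open Pool.Agent.W81.R1
open Pool.Agent.W81.RD
open Pool.Agent.H442R2.EHI (evt_log_pow evt_log_ge)
open Pool.Agent.H300R2.BH (chf fz)

/-- one block -/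
theorem blkL (h : ℕ → ℂ) (hb : ∀ n, ‖h n‖ ≤ 1) (hs : SupE h) (j : ℕ) (hj : 1 ≤ j) (σ : ℤ)
    (hσ : σ = 1 ∨ σ = -1) (C1 U : ℕ) : ∃ B : ℕ, ∀ᶠ x : ℕ in atTop, ∀ (f : ℤ[X]) (α : ℕ) (c0 : ℤ) (A : ℕ),
    f.natDegree ≤ j + 1 → f.coeff (j + 1) = α → f.coeff 0 = 0 → 1 ≤ α → (α : ℝ) ≤ Real.log x ^ C1 →
    (∀ i, 1 ≤ i → i ≤ j → |((f.coeff i : ℤ) : ℝ)| ≤ (x : ℝ) ^ (j + 1 - i) / Real.log x ^ B) →
    |(c0 : ℝ)| ≤ (x : ℝ) ^ (j + 1) * Real.log x ^ (C1 + 1) → (x : ℝ) ^ j * Real.log x ^ B ≤ A →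
    (A : ℝ) ≤ (x : ℝ) ^ j * (x : ℝ) ^ (1 / 4 : ℝ) →
    ∃ Bad : Finset ℤ, (Bad.card : ℝ) ≤ A / Real.log x ^ U ∧ ∀ c ∈ Ioc c0 (c0 + A), c ∉ Bad →
      ∀ y ≤ x, ‖∑ n ∈ Ioc 0 y, fz h (σ * f.eval (n : ℤ) + c)‖ ≤ x / Real.log x ^ U := by
  obtain ⟨B, hall⟩ := all_yL h hb hs j hj σ hσ C1 (C1 + 3) U U
  refine ⟨B, ?_⟩
  filter_upwards [hall, evt_log_ge 100, evt_log_ge (4 * (j + 1) ^ 3), eventually_ge_atTop 4]
    with x hally hL100 hLj hx4 f α c0 A hfd hfα hf0 hα hαC hco hc0 hA hA54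
  set L := Real.log x with hL
  have hL0 : 0 < L := by linarith
  have hL1 : 1 ≤ L := by linarith
  have hp : ∀ n : ℕ, 0 < L ^ n := fun n => by positivity
  have hp1 : ∀ n : ℕ, 1 ≤ L ^ n := fun n => one_le_pow₀ hL1
  have hxr : (4 : ℝ) ≤ x := by exact_mod_cast hx4
  have hx0 : (0 : ℝ) < x := by linarith
  have hj0 : (0 : ℝ) ≤ j := Nat.cast_nonneg _
  have hjL : (j : ℝ) + 1 ≤ L := by
    refine le_trans ?_ hLj
    have h1 : (1 : ℝ) ≤ ((j : ℝ) + 1) ^ 2 := one_le_pow₀ (by linarith)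
    have h2 : ((j : ℝ) + 1) ^ 3 = ((j : ℝ) + 1) * ((j : ℝ) + 1) ^ 2 := by ring
    nlinarith
  -- the values
  have hXX : (0 : ℝ) < (x : ℝ) ^ (j + 1) := by positivity
  have hfv : ∀ n ∈ Ioc 0 x, |((f.eval (n : ℤ) : ℤ) : ℝ)| ≤ (x : ℝ) ^ (j + 1) * (2 * L ^ (C1 + 1)) := by
    intro n hn
    rw [mem_Ioc] at hn
    have hnx : (n : ℝ) ≤ x := by exact_mod_cast hn.2
    have hn0 : (0 : ℝ) ≤ n := Nat.cast_nonneg _
    rw [eval_real f j hfd n, hfα]
    refine (abs_add_le _ _).trans ?_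
    have h1 : |∑ i ∈ range (j + 1), ((f.coeff i : ℤ) : ℝ) * (n : ℝ) ^ i| ≤ (j + 1) * (x : ℝ) ^ (j + 1) := by
      refine (abs_sum_le_sum_abs _ _).trans ?_
      calc ∑ i ∈ range (j + 1), |((f.coeff i : ℤ) : ℝ) * (n : ℝ) ^ i| ≤
            ∑ i ∈ range (j + 1), (x : ℝ) ^ (j + 1) := by
            refine sum_le_sum fun i hi => ?_
            rw [mem_range] at hi
            rcases Nat.eq_zero_or_pos i with h0 | h0
            · rw [h0, hf0]
              simp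
            · have h2 := hco i h0 (by omega)
              rw [abs_mul, abs_of_nonneg (by positivity : (0 : ℝ) ≤ (n : ℝ) ^ i)]
              calc |((f.coeff i : ℤ) : ℝ)| * (n : ℝ) ^ i ≤
                    ((x : ℝ) ^ (j + 1 - i) / L ^ B) * (x : ℝ) ^ i := by gcongr
                _ ≤ ((x : ℝ) ^ (j + 1 - i) / 1) * (x : ℝ) ^ i := by gcongr; exact hp1 B
                _ = (x : ℝ) ^ (j + 1) := by
                    rw [div_one, ← pow_add]
                    congr 1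
                    omega
        _ = (j + 1) * (x : ℝ) ^ (j + 1) := by
            rw [sum_const, card_range, nsmul_eq_mul]
            push_cast
            ring
    have h2 : |((α : ℤ) : ℝ) * (n : ℝ) ^ (j + 1)| ≤ L ^ C1 * (x : ℝ) ^ (j + 1) := by
      rw [Int.cast_natCast, abs_of_nonneg (by positivity)]
      gcongr
    calc _ ≤ (j + 1) * (x : ℝ) ^ (j + 1) + L ^ C1 * (x : ℝ) ^ (j + 1) := add_le_add h1 h2
      _ = (x : ℝ) ^ (j + 1) * ((j + 1) + L ^ C1) := by ring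
      _ ≤ (x : ℝ) ^ (j + 1) * (2 * L ^ (C1 + 1)) := by
          apply mul_le_mul_of_nonneg_left _ hXX.le
          have h3 := hp1 C1
          have h4 : L ^ (C1 + 1) = L ^ C1 * L := pow_succ _ _
          rw [h4]
          nlinarith
  have hAx : (A : ℝ) ≤ (x : ℝ) ^ (j + 1) := by
    refine hA54.trans ?_
    rw [pow_succ]
    gcongr
    calc (x : ℝ) ^ (1 / 4 : ℝ) ≤ (x : ℝ) ^ (1 : ℝ) := Real.rpow_le_rpow_of_exponent_le (by linarith) (by norm_num)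
      _ = x := Real.rpow_one _
  set N := ⌊(x : ℝ) ^ (j + 1) * L ^ (C1 + 3)⌋₊ with hN
  have hNle : (N : ℝ) ≤ (x : ℝ) ^ (j + 1) * L ^ (C1 + 3) := Nat.floor_le (by positivity)
  have hXx : (x : ℝ) ≤ (x : ℝ) ^ (j + 1) := le_self_pow₀ (by linarith) (by omega)
  have hNge : (x : ℝ) ^ (j + 1) * (4 * L ^ (C1 + 1)) ≤ N := by
    have h1 : (x : ℝ) ^ (j + 1) * L ^ (C1 + 3) < N + 1 := Nat.lt_floor_add_one _
    have h2 : (x : ℝ) ^ (j + 1) * L ^ (C1 + 3) = (x : ℝ) ^ (j + 1) * L ^ (C1 + 1) * L ^ 2 := by ring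
    have h3 : 5 ≤ L ^ 2 := by nlinarith
    have h4 : 1 ≤ (x : ℝ) ^ (j + 1) * L ^ (C1 + 1) := by
      have h5 := hp1 (C1 + 1)
      nlinarith
    have h5 : (x : ℝ) ^ (j + 1) * L ^ (C1 + 1) * 5 ≤ (x : ℝ) ^ (j + 1) * L ^ (C1 + 1) * L ^ 2 := by gcongr
    linarith
  have hxN : x ≤ N := by
    have : (x : ℝ) ≤ N := by
      refine le_trans ?_ hNge
      have h5 := hp1 (C1 + 1)
      calc (x : ℝ) ≤ (x : ℝ) ^ (j + 1) * 1 := by rw [mul_one]; exact hXx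
        _ ≤ (x : ℝ) ^ (j + 1) * (4 * L ^ (C1 + 1)) := by gcongr; linarith
    exact_mod_cast this
  have hval : ∀ c ∈ Ioc c0 (c0 + A), ∀ n ∈ Ioc 0 x, |σ * f.eval (n : ℤ) + c| ≤ N := by
    intro c hcm n hn
    have h2 := hfv n hn
    have h3 : |((σ * f.eval (n : ℤ) + c : ℤ) : ℝ)| ≤ N := by
      push_cast
      have h4 : |(σ : ℝ) * ((f.eval (n : ℤ) : ℤ) : ℝ)| = |((f.eval (n : ℤ) : ℤ) : ℝ)| := by
        rw [abs_mul]
        rcases hσ with rfl | rfl <;> simp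
      have h5 : |(c : ℝ)| ≤ |(c0 : ℝ)| + A := by
        rw [mem_Ioc] at hcm
        have h6 : |c| ≤ |c0| + A := by
          have := abs_le.1 (le_refl |c0|)
          rw [abs_le]
          constructor <;> linarith
        exact_mod_cast h6
      refine (abs_add_le _ _).trans ?_
      rw [h4]
      have h7 : (x : ℝ) ^ (j + 1) * 1 ≤ (x : ℝ) ^ (j + 1) * L ^ (C1 + 1) := by gcongr; exact hp1 _
      linarith
    exact_mod_cast h3
  obtain ⟨Bad1, hBad1, hgood⟩ := hally f α A N (c0 + 1) hfd hfα hα hαC hco hA hA54 hxN hNle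
    (fun n hn k hk => hval _ (by rw [mem_Ioc]; constructor <;> push_cast <;> omega) n hn)
  refine ⟨Bad1.image (fun k : ℕ => c0 + 1 + (k : ℤ)), ?_, ?_⟩
  · refine le_trans ?_ hBad1
    exact_mod_cast card_image_le
  · intro c hcm hcB y hy
    rw [mem_Ioc] at hcm
    obtain ⟨k, hk⟩ : ∃ k : ℕ, c = c0 + 1 + (k : ℤ) := ⟨(c - c0 - 1).toNat, by omega⟩
    have hkA : k < A := by omega
    have hkB : k ∉ Bad1 := by
      intro hcon
      apply hcB
      rw [mem_image]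
      exact ⟨k, hcon, hk.symm⟩
    have h1 := hgood k hkA hkB y hy
    refine le_trans (le_of_eq ?_) h1
    congr 1
    refine sum_congr rfl fun n _ => ?_
    rw [hk]

/-- **almost all constant terms in a short interval** -/
theorem finL (h : ℕ → ℂ) (hb : ∀ n, ‖h n‖ ≤ 1) (hs : SupE h) (j : ℕ) (hj : 1 ≤ j) (σ : ℤ)
    (hσ : σ = 1 ∨ σ = -1) (C1 U : ℕ) : ∃ B : ℕ, ∀ᶠ x : ℕ in atTop, ∀ (f : ℤ[X]) (α : ℕ) (c0 : ℤ) (A : ℕ),
    f.natDegree ≤ j + 1 → f.coeff (j + 1) = α → f.coeff 0 = 0 → 1 ≤ α → (α : ℝ) ≤ Real.log x ^ C1 →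
    (∀ i, 1 ≤ i → i ≤ j → |((f.coeff i : ℤ) : ℝ)| ≤ (x : ℝ) ^ (j + 1 - i) / Real.log x ^ B) →
    |(c0 : ℝ)| ≤ (x : ℝ) ^ (j + 1) * Real.log x ^ C1 → (x : ℝ) ^ j * Real.log x ^ B ≤ A →
    (A : ℝ) ≤ (x : ℝ) ^ (j + 1) * Real.log x ^ C1 →
    ∃ Bad : Finset ℤ, (Bad.card : ℝ) ≤ A / Real.log x ^ U ∧ ∀ c ∈ Ioc c0 (c0 + A), c ∉ Bad →
      ∀ y ≤ x, ‖∑ n ∈ Ioc 0 y, fz h (σ * f.eval (n : ℤ) + c)‖ ≤ x / Real.log x ^ (U + 1) := by
  obtain ⟨B, hB⟩ := blkL h hb hs j hj σ hσ C1 (U + 1)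
  refine ⟨B, ?_⟩
  filter_upwards [hB, evt_log_ge 4, evt_log_pow (B + 1) (1 / 4) (by norm_num), eventually_ge_atTop 4]
    with x hblk hL4 hLp hx4 f α c0 A hfd hfα hf0 hα hαC hco hc0 hA hA2
  set L := Real.log x with hL
  have hL0 : 0 < L := by linarith
  have hL1 : 1 ≤ L := by linarith
  have hp : ∀ n : ℕ, 0 < L ^ n := fun n => by positivity
  have hp1 : ∀ n : ℕ, 1 ≤ L ^ n := fun n => one_le_pow₀ hL1
  have hxr : (4 : ℝ) ≤ x := by exact_mod_cast hx4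
  have hx0 : (0 : ℝ) < x := by linarith
  have hxj : (1 : ℝ) ≤ (x : ℝ) ^ j := one_le_pow₀ (by linarith)
  set A1 := ⌈(x : ℝ) ^ j * L ^ B⌉₊ with hA1
  have hA1ge : (x : ℝ) ^ j * L ^ B ≤ A1 := Nat.le_ceil _
  have hA1A : A1 ≤ A := Nat.ceil_le.2 hA
  have hA1pos : 0 < A1 := Nat.ceil_pos.2 (by positivity)
  have hA1r : (0 : ℝ) < A1 := by exact_mod_cast hA1pos
  have hA154 : (A1 : ℝ) ≤ (x : ℝ) ^ j * (x : ℝ) ^ (1 / 4 : ℝ) := by
    have h1 : (A1 : ℝ) < (x : ℝ) ^ j * L ^ B + 1 := Nat.ceil_lt_add_one (by positivity)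
    have h2 : 1 ≤ (x : ℝ) ^ j * L ^ B := by nlinarith [hp1 B]
    calc (A1 : ℝ) ≤ 2 * ((x : ℝ) ^ j * L ^ B) := by linarith
      _ ≤ L * ((x : ℝ) ^ j * L ^ B) := by gcongr; linarith
      _ = (x : ℝ) ^ j * L ^ (B + 1) := by ring
      _ ≤ (x : ℝ) ^ j * (x : ℝ) ^ (1 / 4 : ℝ) := by gcongr
  set J := A / A1 + 1 with hJ
  have hJA : A < A1 * J := Nat.lt_mul_div_succ A hA1pos
  have hJA2 : A1 * (A / A1) ≤ A := Nat.mul_div_le A A1
  have hblock : ∀ i : ℕ, ∃ Bad : Finset ℤ, (Bad.card : ℝ) ≤ A1 / L ^ (U + 1) ∧ (i < J →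
      ∀ c ∈ Ioc (c0 + (A1 * i : ℕ)) (c0 + (A1 * i : ℕ) + A1), c ∉ Bad →
      ∀ y ≤ x, ‖∑ n ∈ Ioc 0 y, fz h (σ * f.eval (n : ℤ) + c)‖ ≤ x / L ^ (U + 1)) := by
    intro i
    by_cases hi : i < J
    · have hj1 : A1 * i ≤ A := le_trans (Nat.mul_le_mul_left _ (by omega)) hJA2
      have hj2 : ((A1 * i : ℕ) : ℝ) ≤ A := by exact_mod_cast hj1
      obtain ⟨Bad, h1, h2⟩ := hblk f α (c0 + (A1 * i : ℕ)) A1 hfd hfα hf0 hα hαC hco (by
        push_cast at hj2 ⊢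
        have h3 : |(c0 : ℝ) + A1 * i| ≤ |(c0 : ℝ)| + A := by
          refine (abs_add_le _ _).trans ?_
          rw [abs_of_nonneg (by positivity : (0 : ℝ) ≤ A1 * i)]
          linarith
        calc |(c0 : ℝ) + A1 * i| ≤ |(c0 : ℝ)| + A := h3
          _ ≤ 2 * ((x : ℝ) ^ (j + 1) * L ^ C1) := by linarith
          _ ≤ L * ((x : ℝ) ^ (j + 1) * L ^ C1) := by gcongr; linarith
          _ = (x : ℝ) ^ (j + 1) * L ^ (C1 + 1) := by ring) hA1ge hA154
      exact ⟨Bad, h1, fun _ => h2⟩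
    · exact ⟨∅, by rw [card_empty]; push_cast; positivity, fun h => absurd h hi⟩
  choose Bad hBad hgood using hblock
  refine ⟨(range J).biUnion Bad, ?_, ?_⟩
  · calc (((range J).biUnion Bad).card : ℝ) ≤ ∑ i ∈ range J, ((Bad i).card : ℝ) := by
          exact_mod_cast card_biUnion_le
      _ ≤ ∑ i ∈ range J, (A1 : ℝ) / L ^ (U + 1) := sum_le_sum fun i _ => hBad i
      _ = (J * A1 : ℝ) / L ^ (U + 1) := by rw [sum_const, card_range, nsmul_eq_mul, mul_div_assoc]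
      _ ≤ (2 * A) / L ^ (U + 1) := by
          have h1 : (J : ℝ) * A1 ≤ 2 * A := by
            have h2 : J * A1 ≤ 2 * A := by
              rw [hJ, add_mul, one_mul, mul_comm (A / A1) A1]
              omega
            exact_mod_cast h2
          gcongr
      _ ≤ A / L ^ U := by
          rw [div_le_div_iff₀ (by positivity) (by positivity), pow_succ]
          have : 0 ≤ (A : ℝ) * L ^ U := by positivity
          nlinarith
  · intro c hc hcB y hy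
    rw [mem_Ioc] at hc
    set k := (c - c0 - 1).toNat with hk
    have hkc : c0 + 1 + (k : ℤ) = c := by omega
    have hkA : k < A := by omega
    set i := k / A1 with hi
    have h1 : A1 * i ≤ k := Nat.mul_div_le k A1
    have h2 : k < A1 * (i + 1) := Nat.lt_mul_div_succ k hA1pos
    have hiJ : i < J := by
      have h3 : A1 * i < A1 * J := by omega
      exact Nat.lt_of_mul_lt_mul_left h3
    apply hgood i hiJ c _ _ y hy
    · rw [mem_Ioc]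
      rw [Nat.mul_succ] at h2
      constructor <;> omega
    · intro hcon
      apply hcB
      rw [mem_biUnion]
      exact ⟨i, mem_range.2 hiJ, hcon⟩

/-- a function of the absolute value -/
noncomputable def habs (h : ℕ → ℂ) (v : ℤ) : ℂ := if v = 0 then 0 else h v.natAbs

lemma habs_eq (h : ℕ → ℂ) (v : ℤ) : habs h v = fz h v + fz h (-v) := by
  unfold habs fz
  rcases lt_trichotomy v 0 with hv | hv | hv
  · rw [if_neg (by omega), if_neg (by omega), if_pos (by omega), zero_add]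
    congr 1
    omega
  · subst hv
    simp
  · rw [if_neg (by omega), if_pos (by omega), if_neg (by omega), add_zero]
    congr 1
    omega

/-- both signs of the values -/
theorem absL (h : ℕ → ℂ) (hb : ∀ n, ‖h n‖ ≤ 1) (hs : SupE h) (j : ℕ) (hj : 1 ≤ j)
    (C1 U : ℕ) : ∃ B : ℕ, ∀ᶠ x : ℕ in atTop, ∀ (f : ℤ[X]) (α : ℕ) (c0 : ℤ) (A : ℕ),
    f.natDegree ≤ j + 1 → f.coeff (j + 1) = α → f.coeff 0 = 0 → 1 ≤ α → (α : ℝ) ≤ Real.log x ^ C1 →
    (∀ i, 1 ≤ i → i ≤ j → |((f.coeff i : ℤ) : ℝ)| ≤ (x : ℝ) ^ (j + 1 - i) / Real.log x ^ B) →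
    |(c0 : ℝ)| ≤ (x : ℝ) ^ (j + 1) * Real.log x ^ C1 → (x : ℝ) ^ j * Real.log x ^ B ≤ A →
    (A : ℝ) ≤ (x : ℝ) ^ (j + 1) * Real.log x ^ C1 →
    ∃ Bad : Finset ℤ, (Bad.card : ℝ) ≤ A / Real.log x ^ U ∧ ∀ c : ℤ, c0 < c → c ≤ c0 + A → c ∉ Bad →
      ∀ y ≤ x, ‖∑ n ∈ Ioc 0 y, habs h (f.eval (n : ℤ) + c)‖ ≤ x / Real.log x ^ U := by
  obtain ⟨B1, hB1⟩ := finL h hb hs j hj 1 (Or.inl rfl) C1 (U + 1)
  obtain ⟨B2, hB2⟩ := finL h hb hs j hj (-1) (Or.inr rfl) (C1 + 1) (U + 1)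
  refine ⟨max B1 B2, ?_⟩
  filter_upwards [hB1, hB2, evt_log_ge 4, eventually_ge_atTop 1]
    with x hx1 hx2 hL4 hx0 f α c0 A hfd hfα hf0 hα hαC hco hc0 hA1 hA2
  set L := Real.log x with hL
  have hL0 : 0 < L := by linarith
  have hL1 : 1 ≤ L := by linarith
  have hp : ∀ n : ℕ, 0 < L ^ n := fun n => by positivity
  have hp1 : ∀ n : ℕ, 1 ≤ L ^ n := fun n => one_le_pow₀ hL1
  have hxr : (1 : ℝ) ≤ x := by exact_mod_cast hx0
  have hone : (1 : ℝ) ≤ (x : ℝ) ^ (j + 1) * L ^ C1 := by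
    have h3 := hp1 C1
    have h4 : 1 ≤ (x : ℝ) ^ (j + 1) := one_le_pow₀ hxr
    nlinarith
  have hA0 : (0 : ℝ) ≤ A := Nat.cast_nonneg _
  obtain ⟨Bad1, hb1, hg1⟩ := hx1 f α c0 A hfd hfα hf0 hα hαC
    (fun i hi1 hij => (hco i hi1 hij).trans (by
      apply div_le_div_of_nonneg_left (by positivity) (hp _)
      exact pow_le_pow_right₀ hL1 (le_max_left _ _))) hc0
    (le_trans (by gcongr; exact le_max_left _ _) hA1) hA2
  obtain ⟨Bad2, hb2, hg2⟩ := hx2 f α (-c0 - A - 1) A hfd hfα hf0 hα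
    (hαC.trans (pow_le_pow_right₀ hL1 (by omega)))
    (fun i hi1 hij => (hco i hi1 hij).trans (by
      apply div_le_div_of_nonneg_left (by positivity) (hp _)
      exact pow_le_pow_right₀ hL1 (le_max_right _ _)))
    (by
      push_cast
      have h3 : |-(c0 : ℝ) - A - 1| ≤ |(c0 : ℝ)| + A + 1 := by
        have h4 := abs_le.1 (le_refl |(c0 : ℝ)|)
        rw [abs_le]
        constructor <;> linarith
      refine h3.trans ?_
      calc |(c0 : ℝ)| + A + 1 ≤ 4 * ((x : ℝ) ^ (j + 1) * L ^ C1) := by linarith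
        _ ≤ L * ((x : ℝ) ^ (j + 1) * L ^ C1) := by gcongr
        _ = (x : ℝ) ^ (j + 1) * L ^ (C1 + 1) := by ring)
    (le_trans (by gcongr; exact le_max_right _ _) hA1)
    (by
      refine hA2.trans ?_
      gcongr
      omega)
  refine ⟨Bad1 ∪ Bad2.image (fun c => -c), ?_, ?_⟩
  · have h3 : ((Bad1 ∪ Bad2.image (fun c => -c)).card : ℝ) ≤ Bad1.card + Bad2.card := by
      have h4 := card_union_le Bad1 (Bad2.image (fun c : ℤ => -c))
      have h5 := card_image_le (s := Bad2) (f := fun c : ℤ => -c)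
      exact_mod_cast h4.trans (by omega)
    refine h3.trans ((add_le_add hb1 hb2).trans ?_)
    rw [← add_div, div_le_div_iff₀ (hp _) (hp _), pow_succ]
    have h8 : 0 ≤ (A : ℝ) * L ^ U := by positivity
    nlinarith
  · intro c hc1 hc2 hcB y hy
    rw [mem_union, not_or] at hcB
    have hcB2 : -c ∉ Bad2 := by
      intro hcon
      apply hcB.2
      rw [mem_image]
      exact ⟨-c, hcon, by ring⟩
    have h1 := hg1 c (mem_Ioc.2 ⟨hc1, hc2⟩) hcB.1 y hy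
    have h2 := hg2 (-c) (by rw [mem_Ioc]; constructor <;> omega) hcB2 y hy
    have e1 : ∑ n ∈ Ioc 0 y, habs h (f.eval (n : ℤ) + c) =
        ∑ n ∈ Ioc 0 y, fz h (1 * f.eval (n : ℤ) + c) + ∑ n ∈ Ioc 0 y, fz h (-1 * f.eval (n : ℤ) + -c) := by
      rw [← sum_add_distrib]
      refine sum_congr rfl fun n _ => ?_
      rw [habs_eq, one_mul]
      congr 2
      ring
    rw [e1]
    refine (norm_add_le _ _).trans ((add_le_add h1 h2).trans ?_)
    rw [show U + 1 + 1 = U + 2 by ring, ← add_div, div_le_div_iff₀ (hp _) (hp _)]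
    calc ((x : ℝ) + x) * L ^ U = 2 * (x * L ^ U) := by ring
      _ ≤ L ^ 2 * (x * L ^ U) := by
          apply mul_le_mul_of_nonneg_right _ (by positivity)
          nlinarith
      _ = x * L ^ (U + 2) := by ring

end Pool.Agent.W81.RL
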