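import Pool.Agent.W81.RL.ApL
import Pool.Agent.H373R2.T7.SupLiou

/-!
The Liouville and Moebius functions at the values of a polynomial of either sign.
-/

set_option autoImplicit false

namespace Pool.Agent.W81.RL

open Finset Filter Polynomial
open Pool.Agent.H469R2.NK (e norm_e)
open Pool.Agent.H373R2.T7 (liR muC liR_norm muC_norm sup_liou sup_muC SupSmall)
open Pool.Agent.W81.R1 (ee_eq)

lemma supE_of (h : ℕ → ℂ) (hs : SupSmall h) : SupE h := by
  intro U
  obtain ⟨N0, h0⟩ := hs U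
  refine ⟨N0, fun N hN t => ?_⟩
  have := h0 N hN t
  simp_rw [ee_eq] at this
  exact this

lemma habs_neg (h : ℕ → ℂ) (v : ℤ) : habs h (-v) = habs h v := by
  unfold habs
  simp only [neg_eq_zero, Int.natAbs_neg]

lemma dvd_iff_mod (q : ℕ) (hq : 1 ≤ q) (b : ℤ) (k : ℕ) :
    (q : ℤ) ∣ (k : ℤ) - b ↔ k % q = (b % q).toNat := by
  have hq0 : (0:ℤ) < q := by exact_mod_cast hq
  have h1 : 0 ≤ b % q := Int.emod_nonneg b hq0.ne'
  rw [Int.dvd_iff_emod_eq_zero, ← Int.emod_eq_emod_iff_emod_sub_eq_zero]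
  constructor
  · intro h
    rw [← h, ← Int.natCast_mod, Int.toNat_natCast]
  · intro h
    rw [← Int.natCast_mod, h, Int.toNat_of_nonneg h1]

/-- **all progressions**, leading coefficient of either sign -/
theorem apS (h : ℕ → ℂ) (hb : ∀ n, ‖h n‖ ≤ 1) (hs : SupE h) (f : ℤ[X]) (hd : 2 ≤ f.natDegree)
    (C0 U : ℕ) : ∃ B : ℕ, ∀ᶠ x : ℕ in atTop, ∀ (c0 : ℤ) (A : ℕ),
    |(c0 : ℝ)| ≤ (x : ℝ) ^ f.natDegree * Real.log x ^ C0 →
    (x : ℝ) ^ (f.natDegree - 1) * Real.log x ^ B ≤ A →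
    (A : ℝ) ≤ (x : ℝ) ^ f.natDegree * Real.log x ^ C0 →
    ∃ Bad : Finset ℤ, (Bad.card : ℝ) ≤ A / Real.log x ^ U ∧ ∀ c : ℤ, c0 < c → c ≤ c0 + A → c ∉ Bad →
      ∀ q : ℕ, 1 ≤ q → (q : ℝ) ≤ Real.log x ^ C0 → ∀ b < q, ∀ y ≤ x,
        ‖∑ n ∈ (Icc 1 y).filter (fun n : ℕ => n % q = b), habs h (f.eval (n : ℤ) + c)‖ ≤
          x / Real.log x ^ U := by
  have hne : f.leadingCoeff ≠ 0 := by
    intro h0
    rw [leadingCoeff_eq_zero] at h0
    rw [h0] at hd
    simp at hd
  rcases lt_or_gt_of_ne hne with hl | hl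
  · obtain ⟨B, hB⟩ := apL h hb hs (-f) (by rw [natDegree_neg]; exact hd)
      (by rw [leadingCoeff_neg]; omega) (C0 + 1) U
    rw [natDegree_neg] at hB
    refine ⟨B, ?_⟩
    filter_upwards [hB, Pool.Agent.H442R2.EHI.evt_log_ge 4, eventually_ge_atTop 1]
      with x hx hL4 hx1 c0 A hc0 hA1 hA2
    set L := Real.log x with hL
    have hL0 : 0 < L := by linarith
    have hL1 : 1 ≤ L := by linarith
    have hxr : (1 : ℝ) ≤ x := by exact_mod_cast hx1
    have hA0 : (0 : ℝ) ≤ A := Nat.cast_nonneg _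
    have hone : (1 : ℝ) ≤ (x : ℝ) ^ f.natDegree * L ^ C0 := by
      have h3 : (1 : ℝ) ≤ L ^ C0 := one_le_pow₀ hL1
      have h4 : 1 ≤ (x : ℝ) ^ f.natDegree := one_le_pow₀ hxr
      nlinarith
    have hup : (x : ℝ) ^ f.natDegree * L ^ C0 ≤ (x : ℝ) ^ f.natDegree * L ^ (C0 + 1) := by
      apply mul_le_mul_of_nonneg_left _ (by positivity)
      exact pow_le_pow_right₀ hL1 (by omega)
    obtain ⟨Bad, hBad, hgood⟩ := hx (-c0 - A - 1) A (by
      push_cast
      have h3 : |-(c0 : ℝ) - A - 1| ≤ |(c0 : ℝ)| + A + 1 := by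
        have h4 := abs_le.1 (le_refl |(c0 : ℝ)|)
        rw [abs_le]
        constructor <;> linarith
      refine h3.trans ?_
      calc |(c0 : ℝ)| + A + 1 ≤ 4 * ((x : ℝ) ^ f.natDegree * L ^ C0) := by linarith
        _ ≤ L * ((x : ℝ) ^ f.natDegree * L ^ C0) := by gcongr
        _ = (x : ℝ) ^ f.natDegree * L ^ (C0 + 1) := by ring) hA1 (hA2.trans hup)
    refine ⟨Bad.image (fun c => -c), ?_, ?_⟩
    · refine le_trans ?_ hBad
      exact_mod_cast card_image_le
    · intro c hc1 hc2 hcB q hq1 hqL b hbq y hy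
      have hcB' : -c ∉ Bad := by
        intro hcon
        apply hcB
        rw [mem_image]
        exact ⟨-c, hcon, by ring⟩
      have key := hgood (-c) (by linarith) (by linarith) hcB' q hq1
        (hqL.trans (pow_le_pow_right₀ hL1 (by omega))) b hbq y hy
      refine le_trans (le_of_eq ?_) key
      congr 1
      refine sum_congr rfl fun n _ => ?_
      rw [← habs_neg, eval_neg]
      congr 1
      ring
  · exact apL h hb hs f hd hl C0 U

/-- Liouville's function on the integers -/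
noncomputable def lamI' (m : ℤ) : ℤ :=
  if m = 0 then 0 else (-1) ^ (ArithmeticFunction.cardFactors m.natAbs)

/-- the Moebius function on the integers -/
def muI' (m : ℤ) : ℤ := ArithmeticFunction.moebius m.natAbs

lemma lamI'_eq (m : ℤ) : ((lamI' m : ℤ) : ℂ) = habs liR m := by
  unfold lamI' habs liR
  split_ifs
  · simp
  · push_cast
    rfl

lemma muI'_eq (m : ℤ) : ((muI' m : ℤ) : ℂ) = habs muC m := by
  unfold muI' habs muC
  split_ifs with h
  · rw [h]
    simp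
  · rfl

end Pool.Agent.W81.RL
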